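import Pool.Agent.Helper95.KZ.Goals

/-!
# KZ-AS: the assembly
-/

set_option autoImplicit false

namespace Pool.Agent.Helper43.KZ

open Pool.Agent.Helper52.Wq2 Pool.Agent.Helper61.NW Pool.Agent.Helper95.KZ

universe u

theorem as_of (hPre : PreStmt.{u}) (hBal : BalStmt.{u}) (hLin : LinStmt.{u}) (hFar : FarStmt.{u})
    (hJmp : JmpStmt.{u}) (hEn : EnStmt.{u}) : AsStmt.{u} := by
  intro Γ _ S hS hA hK
  obtain ⟨K, hKn, hKne, hKfin⟩ := hK
  obtain ⟨a, b, hab, haK, hbK, hind, R, hR, hcov⟩ := hPre Γ K hKn hKfin hA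
  have hKfin' : Finite K := hKfin.to_subtype
  obtain ⟨k, hk, hk1⟩ : ∃ k ∈ K, k ≠ 1 := by
    by_contra hcon
    push Not at hcon
    exact hKne ((Subgroup.eq_bot_iff_forall K).2 hcon)
  have hpow : ∀ x ∈ K, x ^ Nat.card K = 1 := by
    intro x hx
    have h5 : (⟨x, hx⟩ : K) ^ Nat.card K = 1 := pow_card_eq_one'
    exact congrArg Subtype.val h5
  have hcard : 0 < Nat.card K := Nat.card_pos
  have haK0 : ∀ i : ℤ, a ^ i ∈ K → i = 0 := by
    intro i hi
    have h1 := hpow _ hi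
    rw [← zpow_natCast, ← zpow_mul] at h1
    have h2 := (hind (i * (Nat.card K : ℤ)) 0 (by rw [h1, zpow_zero, one_mul])).1
    rcases mul_eq_zero.1 h2 with h3 | h3
    · exact h3
    · exact absurd (by exact_mod_cast h3) hcard.ne'
  obtain ⟨B, hBfin, hBconn, hRB, hKB⟩ := hBal Γ S K (R ∪ {1, a, b}) hS hKfin
    (hR.union (Set.toFinite _))
  have hPl : Pl S a b k B :=
    { gen := hS
      ab := hab
      ak := haK k hk
      bk := hbK k hk
      ind := hind
      fin := hBfin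
      conn := hBconn
      one := hRB (Or.inr (Or.inl rfl))
      ha := hRB (Or.inr (Or.inr (Or.inl rfl)))
      hb := hRB (Or.inr (Or.inr (Or.inr rfl)))
      kB := fun x hx => hKB k hk x hx
      cov := by
        intro g
        obtain ⟨i, j, r, hr, e⟩ := hcov g
        exact ⟨i, j, r, hRB (Or.inl hr), e⟩ }
  obtain ⟨κ, hκ, j, hj, F, hFfin, -, hlconn, hldisj⟩ := hLin Γ S K a hS hKn haK haK0
  set z := κ * a ^ j with hz
  set l : Set Γ := {x | ∃ i : ℤ, ∃ f ∈ F, x = z ^ i * f} with hl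
  have hκa : Commute κ a := (haK κ hκ).symm
  have hκaj : Commute κ (a ^ j) := hκa.zpow_right j
  have hzi : ∀ i : ℤ, z ^ i = κ ^ i * a ^ (j * i) := by
    intro i
    rw [hz, hκaj.mul_zpow, zpow_mul]
  have hzb : z * b = b * z := by
    have h1 : Commute κ b := (hbK κ hκ).symm
    have h2 : Commute (a ^ j) b := (show Commute a b from hab).zpow_left j
    exact (h1.mul_left h2)
  have hzn : ∀ n : ℕ, 0 < n → z ^ n ≠ 1 := by
    intro n hn h1
    have h2 := hzi (n : ℤ)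
    rw [zpow_natCast, h1] at h2
    have h3 : a ^ (j * (n : ℤ)) = (κ ^ (n : ℤ))⁻¹ := (inv_eq_of_mul_eq_one_right h2.symm).symm
    have h4 : a ^ (j * (n : ℤ)) ∈ K := by
      rw [h3]
      exact K.inv_mem (K.zpow_mem hκ _)
    rcases mul_eq_zero.1 (haK0 _ h4) with h5 | h5
    · exact hj h5
    · exact absurd (by exact_mod_cast h5) hn.ne'
  have hzl : ∀ x, z * x ∈ l ↔ x ∈ l := by
    intro x
    constructor
    · rintro ⟨i, f, hf, e⟩
      refine ⟨i - 1, f, hf, ?_⟩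
      rw [zpow_sub_one]
      have : x = z⁻¹ * (z * x) := by rw [inv_mul_cancel_left]
      rw [this, e, ← mul_assoc, ((Commute.refl z).inv_left.zpow_right i).eq]
    · rintro ⟨i, f, hf, e⟩
      refine ⟨i + 1, f, hf, ?_⟩
      rw [e, zpow_add_one, ← mul_assoc, ((Commute.refl z).zpow_right i).eq]
  obtain ⟨L, hL, hLF⟩ := hFar Γ S a b k B hPl {x | ∃ κ' ∈ K, ∃ f ∈ F, x = κ' * f} (by
    refine (Set.Finite.image2 (fun x y => x * y) hKfin hFfin).subset ?_
    rintro x ⟨κ', hκ', f, hf, rfl⟩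
    exact ⟨κ', hκ', f, hf, rfl⟩)
  have hheight : ∀ i j' : ℤ, ∀ x ∈ B, a ^ i * b ^ j' * x ∈ l → |j'| ≤ L := by
    intro i j' x hx hmem
    obtain ⟨i₀, f, hf, e⟩ := hmem
    refine hLF (i - j * i₀) j' x hx ⟨κ ^ i₀, K.zpow_mem hκ _, f, hf, ?_⟩
    have h1 : Commute (κ ^ i₀) (a ^ (j * i₀)) := (hκa.zpow_right _).zpow_left _
    rw [hzi, h1.eq] at e
    have h2 : a ^ (i - j * i₀) = (a ^ (j * i₀))⁻¹ * a ^ i := by
      rw [← zpow_neg, ← zpow_add]
      congr 1
      ring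
    rw [h2, mul_assoc, mul_assoc, ← mul_assoc (a ^ i), e, mul_assoc, inv_mul_cancel_left]
  have hJ : Jmp S a b B l := hJmp Γ S a b k B hPl (Nat.card K) hcard (hpow k hk) l hlconn
    (fun x hx => hldisj k hk hk1 x hx) L hL hheight
  exact hEn Γ S a b k B hPl z l hzb hzn hlconn hzl L hL hheight hJ

end Pool.Agent.Helper43.KZ
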